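import Pool.Agent.Lib.MP_e682ea_al.RepM

/-!
The concrete representation on the vector space with basis `N n`, `A n`, `B n`.
-/

open Finset

namespace Pool.Agent.Lib.MP_e682ea_al

universe u v

/-- basis index -/
inductive Om : Type
  | N (n : ℕ) : Om
  | A (n : ℕ) : Om
  | B (n : ℕ) : Om

section
variable (k : Type u) [Field k]

/-- the space -/
abbrev WW : Type u := Om →₀ k

namespace Conc

variable {k}

/-- basis vectors -/
noncomputable def e (x : Om) : WW k := Finsupp.single x 1

/-- the linear map with given values on the basis -/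
noncomputable def L {M : Type u} [AddCommGroup M] [Module k M] (f : Om → M) : WW k →ₗ[k] M :=
  Finsupp.linearCombination k f

@[simp] theorem L_e {M : Type u} [AddCommGroup M] [Module k M] (f : Om → M) (x : Om) :
    L (k := k) f (e x) = f x := by
  simp [L, e]

theorem ext_e {M : Type u} [AddCommGroup M] [Module k M] {F G : WW k →ₗ[k] M}
    (h : ∀ x, F (e x) = G (e x)) (x : WW k) : F x = G x := by
  have : F = G := by
    ext y
    simpa [e] using h y
  rw [this]

open Om

variable (k)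

/-- operator -/
noncomputable def h : WW k →ₗ[k] WW k := L fun x => match x with
  | N 0 => - e (B 0)
  | N (n+1) => e (N n)
  | A n => - e (B (n+1))
  | B n => e (A n)

/-- operator -/
noncomputable def hi : WW k →ₗ[k] WW k := L fun x => match x with
  | N n => e (N (n+1))
  | A n => e (B n)
  | B 0 => - e (N 0)
  | B (n+1) => - e (A n)

/-- operator -/
noncomputable def vv : WW k →ₗ[k] WW k := L fun x => match x with
  | N n => e (N n)
  | A n => e (B (n+1))
  | B n => - e (A n)

/-- operator -/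
noncomputable def uu : WW k →ₗ[k] WW k := L fun x => match x with
  | N n => e (N n)
  | A n => - e (B n)
  | B 0 => e (N 0)
  | B (n+1) => e (A n)

/-- operator -/
noncomputable def vv' : WW k →ₗ[k] WW k := L fun x => match x with
  | N 0 => e (B 0)
  | N (n+1) => e (N (n+1))
  | A n => e (B (n+1))
  | B n => - e (A n)

/-- operator -/
noncomputable def m : WW k →ₗ[k] WW k := L fun x => match x with
  | N 0 => e (N 2) - e (A 1)
  | N 1 => e (N 3) - e (A 0)
  | N (n+2) => e (N (n+4)) - e (N n)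
  | A 0 => e (N 1) - e (A 2)
  | A 1 => e (N 0) - e (A 3)
  | A (n+2) => e (A n) - e (A (n+4))
  | B 0 => e (N 2) + e (B 1)
  | B 1 => e (N 1) + e (B 2)
  | B 2 => e (N 0) - e (A 0) + e (B 3) - e (B 0)
  | B (n+3) => e (A n) - e (A (n+1)) + e (B (n+4)) - e (B (n+1))

/-- operator -/
noncomputable def r : WW k →ₗ[k] WW k := L fun x => match x with
  | N _ => 0
  | A 0 => e (N 0) - e (B 0) + e (A 0) - e (B 1)
  | A 1 => e (A 1) + e (A 2)
  | A 2 => e (B 1) + e (A 1)
  | A (_+3) => 0
  | B 0 => - e (N 0) - e (A 0)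
  | B 1 => - e (B 0) - e (A 0)
  | B 2 => - e (B 1) - e (A 1)
  | B (_+3) => 0

/-- functional -/
noncomputable def fa : WW k →ₗ[k] k := L fun x => match x with
  | N 0 => 1
  | _ => 0

/-- functional -/
noncomputable def fa1 : WW k →ₗ[k] k := L fun x => match x with
  | A 0 => -1
  | _ => 0

/-- functional -/
noncomputable def fb : WW k →ₗ[k] k := L fun x => match x with
  | B 1 => 1
  | _ => 0

/-- functional -/
noncomputable def fc : WW k →ₗ[k] k := L fun x => match x with
  | B 0 => -1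
  | _ => 0

/-- functional -/
noncomputable def fc1 : WW k →ₗ[k] k := L fun x => match x with
  | N 1 => 1
  | _ => 0

/-- functional -/
noncomputable def fd : WW k →ₗ[k] k := L fun x => match x with
  | B 0 => 1
  | A 0 => -1
  | _ => 0

theorem h_hi (x : WW k) : h k (hi k x) = x := by
  refine ext_e (F := h k ∘ₗ hi k) (G := LinearMap.id) (fun x => ?_) x
  rcases x with n | n | n <;> rcases n with _ | n <;> simp [h, hi]

theorem hi_h (x : WW k) : hi k (h k x) = x := by
  refine ext_e (F := hi k ∘ₗ h k) (G := LinearMap.id) (fun x => ?_) x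
  rcases x with n | n | n <;> rcases n with _ | n <;> simp [h, hi]

/-- The data. -/
noncomputable def dat : Dat k (WW k) where
  u := uu k
  v := vv k
  v' := vv' k
  m := m k
  r := r k
  h := h k
  hi := hi k
  a := fa k
  a1 := fa1 k
  b := fb k
  c := fc k
  c1 := fc1 k
  d := fd k
  v0 := e (N 0) - e (B 0)
  p := - e (A 0) - e (B 0)
  q := e (N 0) + e (N 1)
  s := e (B 0) + e (B 1)
  y0 := - e (A 1) - e (A 2)
  h_hi := h_hi k
  hi_h := hi_h k
  u_v := by
    refine ext_e (F := uu k ∘ₗ vv k) (G := LinearMap.id) (fun x => ?_)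
    rcases x with n | n | n <;> rcases n with _ | n <;> simp [uu, vv]
  v_u := by
    refine ext_e (F := vv k ∘ₗ uu k) (G := LinearMap.id - rk (fc k) _) (fun x => ?_)
    rcases x with n | n | n <;> rcases n with _ | n <;> simp [uu, vv, fc]
  u_v0 := by simp [uu]
  c_v0 := by simp [fc]
  c_v := by
    refine ext_e (F := fc k ∘ₗ vv k) (G := 0) (fun x => ?_)
    rcases x with n | n | n <;> simp [fc, vv]
  u_v' := by
    refine ext_e (F := uu k ∘ₗ vv' k) (G := LinearMap.id) (fun x => ?_)
    rcases x with n | n | n <;> rcases n with _ | n <;> simp [uu, vv']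
  v'_u := by
    refine ext_e (F := vv' k ∘ₗ uu k) (G := LinearMap.id - rk (fa k) _) (fun x => ?_)
    rcases x with n | n | n <;> rcases n with _ | n <;> simp [uu, vv', fa]
  a_v0 := by simp [fa]
  a_v' := by
    refine ext_e (F := fa k ∘ₗ vv' k) (G := 0) (fun x => ?_)
    rcases x with n | n | n <;> rcases n with _ | n <;> simp [fa, vv']
  a_p := by simp [fa]
  a_q := by simp [fa]
  a_s := by simp [fa]
  a1_p := by simp [fa1]
  a1_q := by simp [fa1]
  a1_s := by simp [fa1]
  b_p := by simp [fb]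
  b_q := by simp [fb]
  b_s := by simp [fb]
  c_p := by simp [fc]
  c_q := by simp [fc]
  c_s := by simp [fc]
  c1_p := by simp [fc1]
  c1_q := by simp [fc1]
  c1_s := by simp [fc1]
  d_p := by simp [fd]
  d_q := by simp [fd]
  d_s := by simp [fd]
  u2 := h k ∘ₗ uu k ∘ₗ hi k
  m2 := h k ∘ₗ m k ∘ₗ hi k
  r2 := h k ∘ₗ r k ∘ₗ hi k
  b2 := fb k ∘ₗ hi k
  h_v' := by
    refine ext_e (F := h k ∘ₗ vv' k) (G := vv k ∘ₗ h k) (fun x => ?_)
    rcases x with n | n | n <;> rcases n with _ | n <;> simp [h, vv', vv]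
  h_u x := by simp [hi_h]
  h_m x := by simp [hi_h]
  h_r x := by simp [hi_h]
  a_hi := by
    refine ext_e (F := fa k ∘ₗ hi k) (G := fc k) (fun x => ?_)
    rcases x with n | n | n <;> rcases n with _ | n <;> simp [fa, hi, fc]
  a1_hi := by
    refine ext_e (F := fa1 k ∘ₗ hi k) (G := fb k) (fun x => ?_)
    rcases x with n | n | n <;> rcases n with _ | _ | n <;> simp [fa1, hi, fb]
  c_hi := by
    refine ext_e (F := fc k ∘ₗ hi k) (G := fa1 k) (fun x => ?_)
    rcases x with n | n | n <;> rcases n with _ | _ | n <;> simp [fc, hi, fa1]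
  c1_hi := by
    refine ext_e (F := fc1 k ∘ₗ hi k) (G := fa k) (fun x => ?_)
    rcases x with n | n | n <;> rcases n with _ | _ | n <;> simp [fc1, hi, fa]
  d_hi := by
    refine ext_e (F := fd k ∘ₗ hi k) (G := fb k - fa1 k) (fun x => ?_)
    rcases x with n | n | n <;> rcases n with _ | _ | n <;> simp [fd, hi, fb, fa1]
  b_hi x := rfl
  h_v0 := by simp [h]; abel
  h_q := by simp [h]; abel
  h_p := by simp [h, vv, r, m]; try abel
  c1_v0 := by simp [fc1]
  d_m_v0 := by simp [fd, m]
  b_r_v0 := by simp [fb, r]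
  b2_v0 := by simp [fb, hi]
  b2_s := by simp [fb, hi]
  h_s := by simp [h, m]; try abel
  u2_v := by
    refine ext_e (F := (h k ∘ₗ uu k ∘ₗ hi k) ∘ₗ vv k) (G := LinearMap.id) (fun x => ?_)
    rcases x with n | n | n <;> rcases n with _ | n <;> simp [h, hi, uu, vv]
  v_u2 := by
    refine ext_e (F := vv k ∘ₗ h k ∘ₗ uu k ∘ₗ hi k) (G := LinearMap.id - rk (fc k) _) (fun x => ?_)
    rcases x with n | n | n <;> rcases n with _ | n <;> simp [h, hi, uu, vv, fc]
  u2_p := by simp [h, hi, uu]
  m_v := by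
    refine ext_e (F := m k ∘ₗ vv k) (G := rk (fb k ∘ₗ hi k) _ + vv k ∘ₗ h k ∘ₗ m k ∘ₗ hi k)
      (fun x => ?_)
    rcases x with n | n | n <;> rcases n with _ | _ | _ | _ | _ | n <;>
      simp [h, hi, vv, m, fb] <;> try abel
  r2_eq := by
    refine ext_e (F := h k ∘ₗ r k ∘ₗ hi k) (G := rk (fd k ∘ₗ h k ∘ₗ uu k ∘ₗ hi k) _ +
      vv k ∘ₗ r k ∘ₗ h k ∘ₗ uu k ∘ₗ hi k - rk (fc k) _) (fun x => ?_)
    rcases x with n | n | n <;> rcases n with _ | _ | _ | _ | _ | n <;>
      simp [h, hi, vv, r, fd, uu, fc] <;> try abel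
  h_y0 := by
    simp [h, hi, m, uu]; try abel
  b_v := by
    refine ext_e (F := fb k ∘ₗ vv k) (G := (fb k ∘ₗ hi k) ∘ₗ vv k ∘ₗ r k -
      fd k ∘ₗ vv k ∘ₗ h k ∘ₗ m k ∘ₗ hi k + fc1 k ∘ₗ vv k) (fun x => ?_)
    rcases x with n | n | n <;> rcases n with _ | _ | _ | _ | _ | n <;>
      simp [h, hi, vv, r, m, fd, fb, fc1]

end Conc
end
end Pool.Agent.Lib.MP_e682ea_al
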