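import Mathlib

/-!
The universal Hopf algebra (with bijective antipode) coacting on a finite dimensional algebra with
structure constants `μ`, together with a group-like element inducing the square of the antipode.
-/

open scoped TensorProduct
open Finset

namespace Pool.Agent.Lib.MP_e682ea_al

universe u v

/-- generators -/
inductive Gen (n : ℕ) : Type
  | t (i j : Fin n) : Gen n
  | r (i j : Fin n) : Gen n
  | g : Gen n
  | g' : Gen n

section
variable {k : Type u} [Field k] {n : ℕ} (μ : Fin n → Fin n → Fin n → k)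

/-- A solution of the defining relations in a ring. -/
structure Sol (B : Type v) [Ring B] [Algebra k B] where
  /-- the matrix `t` -/
  t : Fin n → Fin n → B
  /-- the matrix `r` (inverse antipode of `t`) -/
  r : Fin n → Fin n → B
  /-- group-like element -/
  g : B
  /-- its inverse -/
  g' : B
  gg' : g * g' = 1
  g'g : g' * g = 1
  tr : ∀ i l, ∑ j, t j l * r i j = if i = l then 1 else 0
  rt : ∀ i l, ∑ j, r j l * t i j = if i = l then 1 else 0
  rT : ∀ i l, ∑ j, r i j * (g * t j l * g') = if i = l then 1 else 0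
  Tr : ∀ i l, ∑ j, (g * t i j * g') * r j l = if i = l then 1 else 0
  mt : ∀ i j c, ∑ a, ∑ b, μ a b c • (t i a * t j b) = ∑ l, μ i j l • t l c
  mr : ∀ i j c, ∑ a, ∑ b, μ a b c • (r j b * r i a) = ∑ l, μ i j l • r l c

/-- The defining relations. -/
inductive Rel : FreeAlgebra k (Gen n) → FreeAlgebra k (Gen n) → Prop
  | gg' : Rel (FreeAlgebra.ι k Gen.g * FreeAlgebra.ι k Gen.g') 1
  | g'g : Rel (FreeAlgebra.ι k Gen.g' * FreeAlgebra.ι k Gen.g) 1
  | tr (i l : Fin n) : Rel
      (∑ j, FreeAlgebra.ι k (Gen.t j l) * FreeAlgebra.ι k (Gen.r i j)) (if i = l then 1 else 0)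
  | rt (i l : Fin n) : Rel
      (∑ j, FreeAlgebra.ι k (Gen.r j l) * FreeAlgebra.ι k (Gen.t i j)) (if i = l then 1 else 0)
  | rT (i l : Fin n) : Rel
      (∑ j, FreeAlgebra.ι k (Gen.r i j) *
        (FreeAlgebra.ι k Gen.g * FreeAlgebra.ι k (Gen.t j l) * FreeAlgebra.ι k Gen.g'))
      (if i = l then 1 else 0)
  | Tr (i l : Fin n) : Rel
      (∑ j, (FreeAlgebra.ι k Gen.g * FreeAlgebra.ι k (Gen.t i j) * FreeAlgebra.ι k Gen.g') *
        FreeAlgebra.ι k (Gen.r j l))
      (if i = l then 1 else 0)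
  | mt (i j c : Fin n) : Rel
      (∑ a, ∑ b, μ a b c • (FreeAlgebra.ι k (Gen.t i a) * FreeAlgebra.ι k (Gen.t j b)))
      (∑ l, μ i j l • FreeAlgebra.ι k (Gen.t l c))
  | mr (i j c : Fin n) : Rel
      (∑ a, ∑ b, μ a b c • (FreeAlgebra.ι k (Gen.r j b) * FreeAlgebra.ι k (Gen.r i a)))
      (∑ l, μ i j l • FreeAlgebra.ι k (Gen.r l c))

/-- The universal Hopf algebra. -/
def HA : Type u := RingQuot (Rel μ)

noncomputable instance : Ring (HA μ) := inferInstanceAs (Ring (RingQuot (Rel μ)))
noncomputable instance : Algebra k (HA μ) := inferInstanceAs (Algebra k (RingQuot (Rel μ)))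

namespace HA

/-- quotient map -/
noncomputable def mk : FreeAlgebra k (Gen n) →ₐ[k] HA μ := RingQuot.mkAlgHom k (Rel μ)

theorem mk_rel {x y : FreeAlgebra k (Gen n)} (h : Rel μ x y) : mk μ x = mk μ y :=
  RingQuot.mkAlgHom_rel k h

/-- generators -/
noncomputable def t (i j : Fin n) : HA μ := mk μ (FreeAlgebra.ι k (Gen.t i j))
/-- generators -/
noncomputable def r (i j : Fin n) : HA μ := mk μ (FreeAlgebra.ι k (Gen.r i j))
/-- generators -/
noncomputable def g : HA μ := mk μ (FreeAlgebra.ι k Gen.g)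
/-- generators -/
noncomputable def g' : HA μ := mk μ (FreeAlgebra.ι k Gen.g')

/-- The tautological solution. -/
noncomputable def sol : Sol μ (HA μ) where
  t := t μ
  r := r μ
  g := g μ
  g' := g' μ
  gg' := by simpa [g, g'] using mk_rel μ Rel.gg'
  g'g := by simpa [g, g'] using mk_rel μ Rel.g'g
  tr i l := by
    have := mk_rel μ (Rel.tr i l)
    rw [apply_ite (mk μ)] at this
    simpa [t, r] using this
  rt i l := by
    have := mk_rel μ (Rel.rt i l)
    rw [apply_ite (mk μ)] at this
    simpa [t, r] using this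
  rT i l := by
    have := mk_rel μ (Rel.rT i l)
    rw [apply_ite (mk μ)] at this
    simpa [t, r, g, g'] using this
  Tr i l := by
    have := mk_rel μ (Rel.Tr i l)
    rw [apply_ite (mk μ)] at this
    simpa [t, r, g, g'] using this
  mt i j c := by simpa [t] using mk_rel μ (Rel.mt i j c)
  mr i j c := by simpa [r] using mk_rel μ (Rel.mr i j c)

end HA

variable {μ}

/-- image of generators -/
def Sol.gen {B : Type v} [Ring B] [Algebra k B] (s : Sol μ B) : Gen n → B
  | Gen.t i j => s.t i j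
  | Gen.r i j => s.r i j
  | Gen.g => s.g
  | Gen.g' => s.g'

/-- universal property -/
noncomputable def Sol.lift {B : Type v} [Ring B] [Algebra k B] (s : Sol μ B) : HA μ →ₐ[k] B :=
  RingQuot.liftAlgHom k ⟨FreeAlgebra.lift k s.gen, by
    intro x y h
    cases h with
    | gg' => simpa [Sol.gen] using s.gg'
    | g'g => simpa [Sol.gen] using s.g'g
    | tr i l => rw [apply_ite (FreeAlgebra.lift k s.gen)]; simpa [Sol.gen] using s.tr i l
    | rt i l => rw [apply_ite (FreeAlgebra.lift k s.gen)]; simpa [Sol.gen] using s.rt i l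
    | rT i l => rw [apply_ite (FreeAlgebra.lift k s.gen)]; simpa [Sol.gen] using s.rT i l
    | Tr i l => rw [apply_ite (FreeAlgebra.lift k s.gen)]; simpa [Sol.gen] using s.Tr i l
    | mt i j c => simpa [Sol.gen] using s.mt i j c
    | mr i j c => simpa [Sol.gen] using s.mr i j c⟩

section lift
variable {B : Type v} [Ring B] [Algebra k B] (s : Sol μ B)

theorem Sol.lift_mk (x : FreeAlgebra k (Gen n)) :
    s.lift (HA.mk μ x) = FreeAlgebra.lift k s.gen x :=
  RingQuot.liftAlgHom_mkAlgHom_apply k _ _ _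

@[simp] theorem Sol.lift_t (i j : Fin n) : s.lift (HA.t μ i j) = s.t i j := by
  rw [HA.t, s.lift_mk]; simp [Sol.gen]
@[simp] theorem Sol.lift_r (i j : Fin n) : s.lift (HA.r μ i j) = s.r i j := by
  rw [HA.r, s.lift_mk]; simp [Sol.gen]
@[simp] theorem Sol.lift_g : s.lift (HA.g μ) = s.g := by
  rw [HA.g, s.lift_mk]; simp [Sol.gen]
@[simp] theorem Sol.lift_g' : s.lift (HA.g' μ) = s.g' := by
  rw [HA.g', s.lift_mk]; simp [Sol.gen]

theorem HA.algHom_ext {f₁ f₂ : HA μ →ₐ[k] B} (ht : ∀ i j, f₁ (HA.t μ i j) = f₂ (HA.t μ i j))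
    (hr : ∀ i j, f₁ (HA.r μ i j) = f₂ (HA.r μ i j)) (hg : f₁ (HA.g μ) = f₂ (HA.g μ))
    (hg' : f₁ (HA.g' μ) = f₂ (HA.g' μ)) : f₁ = f₂ := by
  refine RingQuot.ringQuot_ext' k f₁ f₂ (FreeAlgebra.hom_ext ?_)
  funext x
  cases x with
  | t i j => exact ht i j
  | r i j => exact hr i j
  | g => exact hg
  | g' => exact hg'

end lift

section hopf

variable (μ)

/-- counit -/
noncomputable def HA.counitSol : Sol μ k where
  t i j := if i = j then 1 else 0
  r i j := if i = j then 1 else 0
  g := 1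
  g' := 1
  gg' := by simp
  g'g := by simp
  tr i l := by simp
  rt i l := by simp
  rT i l := by simp
  Tr i l := by simp
  mt i j c := by simp
  mr i j c := by simp

theorem sum4_comm {M : Type*} [AddCommMonoid M] {n : ℕ} (F : Fin n → Fin n → Fin n → Fin n → M) :
    ∑ a, ∑ b, ∑ p, ∑ q, F a b p q = ∑ p, ∑ q, ∑ a, ∑ b, F a b p q := by
  calc ∑ a, ∑ b, ∑ p, ∑ q, F a b p q = ∑ a, ∑ p, ∑ b, ∑ q, F a b p q :=
        Finset.sum_congr rfl fun a _ => Finset.sum_comm
    _ = ∑ p, ∑ a, ∑ b, ∑ q, F a b p q := Finset.sum_comm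
    _ = ∑ p, ∑ a, ∑ q, ∑ b, F a b p q :=
        Finset.sum_congr rfl fun p _ => Finset.sum_congr rfl fun a _ => Finset.sum_comm
    _ = ∑ p, ∑ q, ∑ a, ∑ b, F a b p q := Finset.sum_congr rfl fun p _ => Finset.sum_comm

section tensor
variable {μ}
variable {B₁ : Type v} {B₂ : Type v} [Ring B₁] [Algebra k B₁] [Ring B₂] [Algebra k B₂]

/-- product of solutions in a tensor product -/
noncomputable def Sol.tensor (s₁ : Sol μ B₁) (s₂ : Sol μ B₂) : Sol μ (B₁ ⊗[k] B₂) where
  t i j := ∑ l, s₁.t i l ⊗ₜ[k] s₂.t l j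
  r i j := ∑ l, s₁.r l j ⊗ₜ[k] s₂.r i l
  g := s₁.g ⊗ₜ[k] s₂.g
  g' := s₁.g' ⊗ₜ[k] s₂.g'
  gg' := by
    rw [Algebra.TensorProduct.tmul_mul_tmul, s₁.gg', s₂.gg']; rfl
  g'g := by
    rw [Algebra.TensorProduct.tmul_mul_tmul, s₁.g'g, s₂.g'g]; rfl
  tr i l := by
    have h1 : ∀ j, (∑ p, s₁.t j p ⊗ₜ[k] s₂.t p l) * (∑ q, s₁.r q j ⊗ₜ[k] s₂.r i q) =
        ∑ p, ∑ q, (s₁.t j p * s₁.r q j) ⊗ₜ[k] (s₂.t p l * s₂.r i q) := by
      intro j
      rw [Finset.sum_mul_sum]
      simp only [Algebra.TensorProduct.tmul_mul_tmul]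
    simp only [h1]
    rw [Finset.sum_comm]
    have h2 : ∀ p, ∑ j, ∑ q, (s₁.t j p * s₁.r q j) ⊗ₜ[k] (s₂.t p l * s₂.r i q) =
        1 ⊗ₜ[k] (s₂.t p l * s₂.r i p) := by
      intro p
      rw [Finset.sum_comm]
      simp only [← TensorProduct.sum_tmul, s₁.tr]
      rw [Finset.sum_eq_single p]
      · simp
      · intro q _ hq
        simp [hq]
      · simp
    simp only [h2, ← TensorProduct.tmul_sum, s₂.tr]
    split_ifs with h <;> simp [Algebra.TensorProduct.one_def]
  rt i l := by
    have h1 : ∀ j, (∑ q, s₁.r q l ⊗ₜ[k] s₂.r j q) * (∑ p, s₁.t i p ⊗ₜ[k] s₂.t p j) =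
        ∑ q, ∑ p, (s₁.r q l * s₁.t i p) ⊗ₜ[k] (s₂.r j q * s₂.t p j) := by
      intro j
      rw [Finset.sum_mul_sum]
      simp only [Algebra.TensorProduct.tmul_mul_tmul]
    simp only [h1]
    rw [Finset.sum_comm]
    have h2 : ∀ q, ∑ j, ∑ p, (s₁.r q l * s₁.t i p) ⊗ₜ[k] (s₂.r j q * s₂.t p j) =
        (s₁.r q l * s₁.t i q) ⊗ₜ[k] 1 := by
      intro q
      rw [Finset.sum_comm]
      simp only [← TensorProduct.tmul_sum, s₂.rt]
      rw [Finset.sum_eq_single q]
      · simp
      · intro p _ hp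
        simp [hp]
      · simp
    simp only [h2, ← TensorProduct.sum_tmul, s₁.rt]
    split_ifs with h <;> simp [Algebra.TensorProduct.one_def]
  rT i l := by
    have h1 : ∀ j, (∑ q, s₁.r q j ⊗ₜ[k] s₂.r i q) * (s₁.g ⊗ₜ[k] s₂.g *
        (∑ p, s₁.t j p ⊗ₜ[k] s₂.t p l) * s₁.g' ⊗ₜ[k] s₂.g') =
        ∑ q, ∑ p, (s₁.r q j * (s₁.g * s₁.t j p * s₁.g')) ⊗ₜ[k]
          (s₂.r i q * (s₂.g * s₂.t p l * s₂.g')) := by
      intro j
      have h0 : s₁.g ⊗ₜ[k] s₂.g * (∑ p, s₁.t j p ⊗ₜ[k] s₂.t p l) * s₁.g' ⊗ₜ[k] s₂.g' =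
          ∑ p, (s₁.g * s₁.t j p * s₁.g') ⊗ₜ[k] (s₂.g * s₂.t p l * s₂.g') := by
        simp only [Finset.mul_sum, Finset.sum_mul, Algebra.TensorProduct.tmul_mul_tmul]
      rw [h0, Finset.sum_mul_sum]
      simp only [Algebra.TensorProduct.tmul_mul_tmul]
    simp only [h1]
    rw [Finset.sum_comm]
    have h2 : ∀ q, ∑ j, ∑ p, (s₁.r q j * (s₁.g * s₁.t j p * s₁.g')) ⊗ₜ[k]
          (s₂.r i q * (s₂.g * s₂.t p l * s₂.g')) =
        1 ⊗ₜ[k] (s₂.r i q * (s₂.g * s₂.t q l * s₂.g')) := by
      intro q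
      rw [Finset.sum_comm]
      simp only [← TensorProduct.sum_tmul, s₁.rT]
      rw [Finset.sum_eq_single q]
      · simp
      · intro p _ hp
        simp [hp.symm]
      · simp
    simp only [h2, ← TensorProduct.tmul_sum, s₂.rT]
    split_ifs with h <;> simp [Algebra.TensorProduct.one_def]
  Tr i l := by
    have h1 : ∀ j, (s₁.g ⊗ₜ[k] s₂.g *
        (∑ p, s₁.t i p ⊗ₜ[k] s₂.t p j) * s₁.g' ⊗ₜ[k] s₂.g') * (∑ q, s₁.r q l ⊗ₜ[k] s₂.r j q) =
        ∑ p, ∑ q, ((s₁.g * s₁.t i p * s₁.g') * s₁.r q l) ⊗ₜ[k]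
          ((s₂.g * s₂.t p j * s₂.g') * s₂.r j q) := by
      intro j
      have h0 : s₁.g ⊗ₜ[k] s₂.g * (∑ p, s₁.t i p ⊗ₜ[k] s₂.t p j) * s₁.g' ⊗ₜ[k] s₂.g' =
          ∑ p, (s₁.g * s₁.t i p * s₁.g') ⊗ₜ[k] (s₂.g * s₂.t p j * s₂.g') := by
        simp only [Finset.mul_sum, Finset.sum_mul, Algebra.TensorProduct.tmul_mul_tmul]
      rw [h0, Finset.sum_mul_sum]
      simp only [Algebra.TensorProduct.tmul_mul_tmul]
    simp only [h1]
    rw [Finset.sum_comm]
    have h2 : ∀ p, ∑ j, ∑ q, ((s₁.g * s₁.t i p * s₁.g') * s₁.r q l) ⊗ₜ[k]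
          ((s₂.g * s₂.t p j * s₂.g') * s₂.r j q) =
        ((s₁.g * s₁.t i p * s₁.g') * s₁.r p l) ⊗ₜ[k] 1 := by
      intro p
      rw [Finset.sum_comm]
      simp only [← TensorProduct.tmul_sum, s₂.Tr]
      rw [Finset.sum_eq_single p]
      · simp
      · intro q _ hq
        simp [hq.symm]
      · simp
    simp only [h2, ← TensorProduct.sum_tmul, s₁.Tr]
    split_ifs with h <;> simp [Algebra.TensorProduct.one_def]
  mt i j c := by
    have h1 : ∀ a b, μ a b c • ((∑ p, s₁.t i p ⊗ₜ[k] s₂.t p a) * (∑ q, s₁.t j q ⊗ₜ[k] s₂.t q b)) =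
        ∑ p, ∑ q, (s₁.t i p * s₁.t j q) ⊗ₜ[k] (μ a b c • (s₂.t p a * s₂.t q b)) := by
      intro a b
      rw [Finset.sum_mul_sum]
      simp only [Algebra.TensorProduct.tmul_mul_tmul, Finset.smul_sum, TensorProduct.tmul_smul]
    simp only [h1]
    rw [sum4_comm]
    simp only [← TensorProduct.tmul_sum, s₂.mt]
    simp only [TensorProduct.tmul_sum, TensorProduct.tmul_smul, TensorProduct.smul_tmul']
    have h3 : ∀ p, ∑ q, ∑ l, (μ p q l • (s₁.t i p * s₁.t j q)) ⊗ₜ[k] s₂.t l c =
        ∑ l, ∑ q, (μ p q l • (s₁.t i p * s₁.t j q)) ⊗ₜ[k] s₂.t l c := fun p => Finset.sum_comm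
    simp only [h3]
    rw [Finset.sum_comm]
    simp only [← TensorProduct.sum_tmul, s₁.mt]
    simp only [TensorProduct.sum_tmul, Finset.smul_sum, TensorProduct.smul_tmul']
    rw [Finset.sum_comm]
  mr i j c := by
    have h1 : ∀ a b, μ a b c • ((∑ q, s₁.r q b ⊗ₜ[k] s₂.r j q) * (∑ p, s₁.r p a ⊗ₜ[k] s₂.r i p)) =
        ∑ p, ∑ q, (μ a b c • (s₁.r q b * s₁.r p a)) ⊗ₜ[k] (s₂.r j q * s₂.r i p) := by
      intro a b
      rw [Finset.sum_mul_sum, Finset.sum_comm]
      simp only [Algebra.TensorProduct.tmul_mul_tmul, Finset.smul_sum, TensorProduct.smul_tmul']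
    simp only [h1]
    rw [sum4_comm]
    simp only [← TensorProduct.sum_tmul, s₁.mr]
    simp only [TensorProduct.sum_tmul, TensorProduct.smul_tmul]
    have h3 : ∀ p, ∑ q, ∑ l, s₁.r l c ⊗ₜ[k] (μ p q l • (s₂.r j q * s₂.r i p)) =
        ∑ l, ∑ q, s₁.r l c ⊗ₜ[k] (μ p q l • (s₂.r j q * s₂.r i p)) := fun p => Finset.sum_comm
    simp only [h3]
    rw [Finset.sum_comm]
    simp only [← TensorProduct.tmul_sum, s₂.mr]
    simp only [TensorProduct.tmul_sum, Finset.smul_sum, TensorProduct.tmul_smul]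
    rw [Finset.sum_comm]

end tensor

section anti
variable {μ}
variable {B : Type v} [Ring B] [Algebra k B]

open MulOpposite

theorem Sol.tr' (s : Sol μ B) (i l : Fin n) :
    ∑ j, s.t i j * (s.g' * s.r j l * s.g) = if i = l then 1 else 0 := by
  have h : ∀ j, s.t i j * (s.g' * s.r j l * s.g) =
      s.g' * ((s.g * s.t i j * s.g') * s.r j l) * s.g := by
    intro j
    calc s.t i j * (s.g' * s.r j l * s.g) = 1 * (s.t i j * (s.g' * s.r j l * s.g)) := by
          rw [one_mul]
      _ = s.g' * ((s.g * s.t i j * s.g') * s.r j l) * s.g := by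
          rw [← s.g'g]; noncomm_ring
  simp only [h, ← Finset.sum_mul, ← Finset.mul_sum, s.Tr]
  split_ifs <;> simp [s.g'g]

theorem Sol.rt' (s : Sol μ B) (i l : Fin n) :
    ∑ j, (s.g' * s.r i j * s.g) * s.t j l = if i = l then 1 else 0 := by
  have h : ∀ j, (s.g' * s.r i j * s.g) * s.t j l =
      s.g' * (s.r i j * (s.g * s.t j l * s.g')) * s.g := by
    intro j
    calc (s.g' * s.r i j * s.g) * s.t j l = (s.g' * s.r i j * s.g) * s.t j l * 1 := by
          rw [mul_one]
      _ = s.g' * (s.r i j * (s.g * s.t j l * s.g')) * s.g := by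
          rw [← s.g'g]; noncomm_ring
  simp only [h, ← Finset.sum_mul, ← Finset.mul_sum, s.rT]
  split_ifs <;> simp [s.g'g]

theorem Sol.conj (s : Sol μ B) (x : B) : s.g * (s.g' * x * s.g) * s.g' = x := by
  calc s.g * (s.g' * x * s.g) * s.g' = (s.g * s.g') * x * (s.g * s.g') := by noncomm_ring
    _ = x := by rw [s.gg', one_mul, mul_one]

/-- the antipode solution -/
def Sol.anti (s : Sol μ B) : Sol μ Bᵐᵒᵖ where
  t i j := op (s.g' * s.r i j * s.g)
  r i j := op (s.t i j)
  g := op s.g'
  g' := op s.g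
  gg' := by rw [← op_mul, s.gg', op_one]
  g'g := by rw [← op_mul, s.g'g, op_one]
  tr i l := by
    simp only [← op_mul, ← op_sum]
    rw [s.tr']
    split_ifs <;> simp
  rt i l := by
    simp only [← op_mul, ← op_sum]
    rw [s.rt']
    split_ifs <;> simp
  rT i l := by
    simp only [← op_mul, ← op_sum]
    have h : ∀ j, s.g * (s.g' * s.r j l * s.g * s.g') * s.t i j = s.r j l * s.t i j := by
      intro j
      have := s.conj (s.r j l)
      rw [mul_assoc s.g (s.g' * s.r j l * s.g) s.g'] at this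
      rw [this]
    simp only [h, s.rt]
    split_ifs <;> simp
  Tr i l := by
    simp only [← op_mul, ← op_sum]
    have h : ∀ j, s.t j l * (s.g * (s.g' * s.r i j * s.g * s.g')) = s.t j l * s.r i j := by
      intro j
      have := s.conj (s.r i j)
      rw [mul_assoc s.g (s.g' * s.r i j * s.g) s.g'] at this
      rw [this]
    simp only [h, s.tr]
    split_ifs <;> simp
  mt i j c := by
    simp only [← op_mul, ← op_smul, ← op_sum]
    congr 1
    have h : ∀ a b, μ a b c • (s.g' * s.r j b * s.g * (s.g' * s.r i a * s.g)) =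
        s.g' * (μ a b c • (s.r j b * s.r i a)) * s.g := by
      intro a b
      rw [mul_smul_comm, smul_mul_assoc]
      congr 1
      calc s.g' * s.r j b * s.g * (s.g' * s.r i a * s.g) =
          s.g' * s.r j b * (s.g * s.g') * s.r i a * s.g := by noncomm_ring
        _ = s.g' * (s.r j b * s.r i a) * s.g := by rw [s.gg']; noncomm_ring
    simp only [h, ← Finset.sum_mul, ← Finset.mul_sum, s.mr]
    simp only [Finset.mul_sum, Finset.sum_mul, mul_smul_comm, smul_mul_assoc]
  mr i j c := by
    simp only [← op_mul, ← op_smul, ← op_sum]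
    rw [s.mt]

/-- the inverse antipode solution -/
def Sol.anti' (s : Sol μ B) : Sol μ Bᵐᵒᵖ where
  t i j := op (s.r i j)
  r i j := op (s.g * s.t i j * s.g')
  g := op s.g'
  g' := op s.g
  gg' := by rw [← op_mul, s.gg', op_one]
  g'g := by rw [← op_mul, s.g'g, op_one]
  tr i l := by
    simp only [← op_mul, ← op_sum]
    rw [s.Tr]
    split_ifs <;> simp
  rt i l := by
    simp only [← op_mul, ← op_sum]
    rw [s.rT]
    split_ifs <;> simp
  rT i l := by
    simp only [← op_mul, ← op_sum]
    have h : ∀ j, s.g * (s.r j l * s.g') * (s.g * s.t i j * s.g') =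
        s.g * (s.r j l * s.t i j) * s.g' := by
      intro j
      calc s.g * (s.r j l * s.g') * (s.g * s.t i j * s.g') =
          s.g * s.r j l * (s.g' * s.g) * s.t i j * s.g' := by noncomm_ring
        _ = s.g * (s.r j l * s.t i j) * s.g' := by rw [s.g'g]; noncomm_ring
    simp only [h, ← Finset.sum_mul, ← Finset.mul_sum, s.rt]
    split_ifs <;> simp [s.gg']
  Tr i l := by
    simp only [← op_mul, ← op_sum]
    have h : ∀ j, s.g * s.t j l * s.g' * (s.g * (s.r i j * s.g')) =
        s.g * (s.t j l * s.r i j) * s.g' := by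
      intro j
      calc s.g * s.t j l * s.g' * (s.g * (s.r i j * s.g')) =
          s.g * s.t j l * (s.g' * s.g) * s.r i j * s.g' := by noncomm_ring
        _ = s.g * (s.t j l * s.r i j) * s.g' := by rw [s.g'g]; noncomm_ring
    simp only [h, ← Finset.sum_mul, ← Finset.mul_sum, s.tr]
    split_ifs <;> simp [s.gg']
  mt i j c := by
    simp only [← op_mul, ← op_smul, ← op_sum]
    rw [s.mr]
  mr i j c := by
    simp only [← op_mul, ← op_smul, ← op_sum]
    congr 1
    have h : ∀ a b, μ a b c • (s.g * s.t i a * s.g' * (s.g * s.t j b * s.g')) =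
        s.g * (μ a b c • (s.t i a * s.t j b)) * s.g' := by
      intro a b
      rw [mul_smul_comm, smul_mul_assoc]
      congr 1
      calc s.g * s.t i a * s.g' * (s.g * s.t j b * s.g') =
          s.g * s.t i a * (s.g' * s.g) * s.t j b * s.g' := by noncomm_ring
        _ = s.g * (s.t i a * s.t j b) * s.g' := by rw [s.g'g]; noncomm_ring
    simp only [h, ← Finset.sum_mul, ← Finset.mul_sum, s.mt]
    simp only [Finset.mul_sum, Finset.sum_mul, mul_smul_comm, smul_mul_assoc]

end anti

section antipode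

variable {A : Type v} [Ring A] [Bialgebra k A]

open MulOpposite

theorem aux_left (T : A →ₗ[k] A) (hT : ∀ a b, T (a * b) = T b * T a) (z : A ⊗[k] A) (a b : A) :
    LinearMap.mul' k A (T.rTensor A (z * (a ⊗ₜ[k] b))) =
      T a * LinearMap.mul' k A (T.rTensor A z) * b := by
  induction z using TensorProduct.induction_on with
  | zero => simp
  | tmul x y => simp [hT, mul_assoc]
  | add x y hx hy =>
    rw [add_mul, map_add, map_add, hx, hy, map_add, map_add, mul_add, add_mul]

theorem aux_left' (T : A →ₗ[k] A) (hT : ∀ a b, T (a * b) = T b * T a) (z : A ⊗[k] A) (c : k)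
    (hz : LinearMap.mul' k A (T.rTensor A z) = algebraMap k A c) (w : A ⊗[k] A) :
    LinearMap.mul' k A (T.rTensor A (z * w)) = c • LinearMap.mul' k A (T.rTensor A w) := by
  induction w using TensorProduct.induction_on with
  | zero => simp
  | tmul x y =>
    rw [aux_left T hT, hz, ← Algebra.commutes, mul_assoc, Algebra.smul_def]
    simp
  | add x y hx hy =>
    rw [mul_add, map_add, map_add, hx, hy, map_add, map_add, smul_add]

theorem aux_right (T : A →ₗ[k] A) (hT : ∀ a b, T (a * b) = T b * T a) (z : A ⊗[k] A) (a b : A) :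
    LinearMap.mul' k A (T.lTensor A ((a ⊗ₜ[k] b) * z)) =
      a * LinearMap.mul' k A (T.lTensor A z) * T b := by
  induction z using TensorProduct.induction_on with
  | zero => simp
  | tmul x y => simp [hT, mul_assoc]
  | add x y hx hy =>
    rw [mul_add, map_add, map_add, hx, hy, map_add, map_add, mul_add, add_mul]

theorem aux_right' (T : A →ₗ[k] A) (hT : ∀ a b, T (a * b) = T b * T a) (z : A ⊗[k] A) (c : k)
    (hz : LinearMap.mul' k A (T.lTensor A z) = algebraMap k A c) (w : A ⊗[k] A) :
    LinearMap.mul' k A (T.lTensor A (w * z)) = c • LinearMap.mul' k A (T.lTensor A w) := by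
  induction w using TensorProduct.induction_on with
  | zero => simp
  | tmul x y =>
    rw [aux_right T hT, hz, ← Algebra.commutes, mul_assoc, Algebra.smul_def]
    simp
  | add x y hx hy =>
    rw [add_mul, map_add, map_add, hx, hy, map_add, map_add, smul_add]

/-- A criterion for the antipode axiom which has only to be checked on generators. -/
theorem left_antipode_of_adjoin (T : A →ₗ[k] A) (hT1 : T 1 = 1)
    (hT : ∀ a b, T (a * b) = T b * T a) (X : Set A) (hX : Algebra.adjoin k X = ⊤)
    (h : ∀ x ∈ X, LinearMap.mul' k A (T.rTensor A (Coalgebra.comul (R := k) x)) =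
      algebraMap k A (Coalgebra.counit (R := k) x)) (x : A) :
    LinearMap.mul' k A (T.rTensor A (Coalgebra.comul (R := k) x)) =
      algebraMap k A (Coalgebra.counit (R := k) x) := by
  have hx : x ∈ Algebra.adjoin k X := by rw [hX]; trivial
  induction hx using Algebra.adjoin_induction with
  | mem y hy => exact h y hy
  | algebraMap r =>
    rw [Bialgebra.comul_algebraMap, Bialgebra.counit_algebraMap,
      Algebra.TensorProduct.algebraMap_apply, Algebra.algebraMap_eq_smul_one]
    simp [hT1]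
  | add a b _ _ ha hb => rw [map_add, map_add, map_add, ha, hb, map_add, map_add]
  | mul a b _ _ ha hb =>
    rw [Bialgebra.comul_mul, aux_left' T hT _ _ ha, hb, Bialgebra.counit_mul, map_mul,
      Algebra.smul_def]

/-- A criterion for the antipode axiom which has only to be checked on generators. -/
theorem right_antipode_of_adjoin (T : A →ₗ[k] A) (hT1 : T 1 = 1)
    (hT : ∀ a b, T (a * b) = T b * T a) (X : Set A) (hX : Algebra.adjoin k X = ⊤)
    (h : ∀ x ∈ X, LinearMap.mul' k A (T.lTensor A (Coalgebra.comul (R := k) x)) =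
      algebraMap k A (Coalgebra.counit (R := k) x)) (x : A) :
    LinearMap.mul' k A (T.lTensor A (Coalgebra.comul (R := k) x)) =
      algebraMap k A (Coalgebra.counit (R := k) x) := by
  have hx : x ∈ Algebra.adjoin k X := by rw [hX]; trivial
  induction hx using Algebra.adjoin_induction with
  | mem y hy => exact h y hy
  | algebraMap r =>
    rw [Bialgebra.comul_algebraMap, Bialgebra.counit_algebraMap,
      Algebra.TensorProduct.algebraMap_apply, Algebra.algebraMap_eq_smul_one]
    simp [hT1]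
  | add a b _ _ ha hb => rw [map_add, map_add, map_add, ha, hb, map_add, map_add]
  | mul a b _ _ ha hb =>
    rw [Bialgebra.comul_mul, aux_right' T hT _ _ hb, ha, Bialgebra.counit_mul, map_mul,
      Algebra.smul_def, ← map_mul, mul_comm, map_mul]

end antipode

section bialg

open MulOpposite

namespace HA

/-- counit -/
noncomputable def counit : HA μ →ₐ[k] k := (counitSol μ).lift
/-- comultiplication -/
noncomputable def comul : HA μ →ₐ[k] HA μ ⊗[k] HA μ := ((sol μ).tensor (sol μ)).lift
/-- antipode -/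
noncomputable def S : HA μ →ₐ[k] (HA μ)ᵐᵒᵖ := (sol μ).anti.lift
/-- inverse antipode -/
noncomputable def S' : HA μ →ₐ[k] (HA μ)ᵐᵒᵖ := (sol μ).anti'.lift

variable (i j : Fin n)

@[simp] theorem counit_t : counit μ (t μ i j) = if i = j then 1 else 0 := Sol.lift_t _ _ _
@[simp] theorem counit_r : counit μ (r μ i j) = if i = j then 1 else 0 := Sol.lift_r _ _ _
@[simp] theorem counit_g : counit μ (g μ) = 1 := Sol.lift_g _
@[simp] theorem counit_g' : counit μ (g' μ) = 1 := Sol.lift_g' _
@[simp] theorem comul_t : comul μ (t μ i j) = ∑ l, t μ i l ⊗ₜ[k] t μ l j := Sol.lift_t _ _ _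
@[simp] theorem comul_r : comul μ (r μ i j) = ∑ l, r μ l j ⊗ₜ[k] r μ i l := Sol.lift_r _ _ _
@[simp] theorem comul_g : comul μ (g μ) = g μ ⊗ₜ[k] g μ := Sol.lift_g _
@[simp] theorem comul_g' : comul μ (g' μ) = g' μ ⊗ₜ[k] g' μ := Sol.lift_g' _
@[simp] theorem S_t : S μ (t μ i j) = op (g' μ * r μ i j * g μ) := Sol.lift_t _ _ _
@[simp] theorem S_r : S μ (r μ i j) = op (t μ i j) := Sol.lift_r _ _ _
@[simp] theorem S_g : S μ (g μ) = op (g' μ) := Sol.lift_g _
@[simp] theorem S_g' : S μ (g' μ) = op (g μ) := Sol.lift_g' _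
@[simp] theorem S'_t : S' μ (t μ i j) = op (r μ i j) := Sol.lift_t _ _ _
@[simp] theorem S'_r : S' μ (r μ i j) = op (g μ * t μ i j * g' μ) := Sol.lift_r _ _ _
@[simp] theorem S'_g : S' μ (g μ) = op (g' μ) := Sol.lift_g _
@[simp] theorem S'_g' : S' μ (g' μ) = op (g μ) := Sol.lift_g' _

noncomputable instance : Bialgebra k (HA μ) :=
  Bialgebra.ofAlgHom (comul μ) (counit μ)
    (by
      apply algHom_ext
      · intro i j
        simp [TensorProduct.sum_tmul, TensorProduct.tmul_sum]
        rw [Finset.sum_comm]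
      · intro i j
        simp [TensorProduct.sum_tmul, TensorProduct.tmul_sum]
        rw [Finset.sum_comm]
      · simp
      · simp)
    (by
      apply algHom_ext
      · intro i j
        simp [TensorProduct.ite_tmul]
      · intro i j
        simp [TensorProduct.ite_tmul]
      · simp
      · simp)
    (by
      apply algHom_ext
      · intro i j
        simp [TensorProduct.tmul_ite]
      · intro i j
        simp [TensorProduct.tmul_ite]
      · simp
      · simp)

theorem adjoin_gen : Algebra.adjoin k (Set.range fun x : Gen n => mk μ (FreeAlgebra.ι k x)) = ⊤ := by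
  have h1 : Algebra.adjoin k (Set.range (FreeAlgebra.ι k (X := Gen n))) = ⊤ :=
    FreeAlgebra.adjoin_range_ι k _
  have h2 : (mk μ).range = ⊤ := by
    rw [AlgHom.range_eq_top]
    exact RingQuot.mkAlgHom_surjective k _
  rw [← h2, ← Algebra.map_top, ← h1, AlgHom.map_adjoin, ← Set.range_comp]
  rfl

/-- antipode as a linear map -/
noncomputable def anti : HA μ →ₗ[k] HA μ :=
  (opLinearEquiv k).symm.toLinearMap ∘ₗ (S μ).toLinearMap
/-- inverse antipode as a linear map -/
noncomputable def anti' : HA μ →ₗ[k] HA μ :=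
  (opLinearEquiv k).symm.toLinearMap ∘ₗ (S' μ).toLinearMap

theorem anti_apply (x : HA μ) : anti μ x = unop (S μ x) := rfl
theorem anti'_apply (x : HA μ) : anti' μ x = unop (S' μ x) := rfl

theorem anti_mul (a b : HA μ) : anti μ (a * b) = anti μ b * anti μ a := by
  simp [anti_apply]

theorem comul_eq (x : HA μ) : Coalgebra.comul (R := k) x = comul μ x := rfl
theorem counit_eq (x : HA μ) : Coalgebra.counit (R := k) x = counit μ x := rfl

noncomputable instance : HopfAlgebra k (HA μ) where
  antipode := anti μ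
  mul_antipode_rTensor_comul := by
    ext x
    refine left_antipode_of_adjoin (anti μ) (by simp [anti_apply]) (anti_mul μ) _
      (adjoin_gen μ) ?_ x
    rintro _ ⟨y, rfl⟩
    cases y with
    | t i j =>
      change LinearMap.mul' k _ ((anti μ).rTensor _ (comul μ (t μ i j))) =
        algebraMap k _ (counit μ (t μ i j))
      rw [comul_t, counit_t, map_sum, map_sum]
      simp only [LinearMap.rTensor_tmul, LinearMap.mul'_apply, anti_apply, S_t, unop_op]
      refine ((sol μ).rt' i j).trans ?_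
      split_ifs <;> simp
    | r i j =>
      change LinearMap.mul' k _ ((anti μ).rTensor _ (comul μ (r μ i j))) =
        algebraMap k _ (counit μ (r μ i j))
      rw [comul_r, counit_r, map_sum, map_sum]
      simp only [LinearMap.rTensor_tmul, LinearMap.mul'_apply, anti_apply, S_r, unop_op]
      refine ((sol μ).tr i j).trans ?_
      split_ifs <;> simp
    | g =>
      change LinearMap.mul' k _ ((anti μ).rTensor _ (comul μ (g μ))) =
        algebraMap k _ (counit μ (g μ))
      rw [comul_g, counit_g]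
      simp only [LinearMap.rTensor_tmul, LinearMap.mul'_apply, anti_apply, S_g, unop_op, map_one]
      exact (sol μ).g'g
    | g' =>
      change LinearMap.mul' k _ ((anti μ).rTensor _ (comul μ (g' μ))) =
        algebraMap k _ (counit μ (g' μ))
      rw [comul_g', counit_g']
      simp only [LinearMap.rTensor_tmul, LinearMap.mul'_apply, anti_apply, S_g', unop_op, map_one]
      exact (sol μ).gg'
  mul_antipode_lTensor_comul := by
    ext x
    refine right_antipode_of_adjoin (anti μ) (by simp [anti_apply]) (anti_mul μ) _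
      (adjoin_gen μ) ?_ x
    rintro _ ⟨y, rfl⟩
    cases y with
    | t i j =>
      change LinearMap.mul' k _ ((anti μ).lTensor _ (comul μ (t μ i j))) =
        algebraMap k _ (counit μ (t μ i j))
      rw [comul_t, counit_t, map_sum, map_sum]
      simp only [LinearMap.lTensor_tmul, LinearMap.mul'_apply, anti_apply, S_t, unop_op]
      refine ((sol μ).tr' i j).trans ?_
      split_ifs <;> simp
    | r i j =>
      change LinearMap.mul' k _ ((anti μ).lTensor _ (comul μ (r μ i j))) =
        algebraMap k _ (counit μ (r μ i j))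
      rw [comul_r, counit_r, map_sum, map_sum]
      simp only [LinearMap.lTensor_tmul, LinearMap.mul'_apply, anti_apply, S_r, unop_op]
      refine ((sol μ).rt i j).trans ?_
      split_ifs <;> simp
    | g =>
      change LinearMap.mul' k _ ((anti μ).lTensor _ (comul μ (g μ))) =
        algebraMap k _ (counit μ (g μ))
      rw [comul_g, counit_g]
      simp only [LinearMap.lTensor_tmul, LinearMap.mul'_apply, anti_apply, S_g, unop_op, map_one]
      exact (sol μ).gg'
    | g' =>
      change LinearMap.mul' k _ ((anti μ).lTensor _ (comul μ (g' μ))) =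
        algebraMap k _ (counit μ (g' μ))
      rw [comul_g', counit_g']
      simp only [LinearMap.lTensor_tmul, LinearMap.mul'_apply, anti_apply, S_g', unop_op, map_one]
      exact (sol μ).g'g

theorem antipode_eq (x : HA μ) : HopfAlgebra.antipode k x = anti μ x := rfl

theorem anti'_mul (a b : HA μ) : anti' μ (a * b) = anti' μ b * anti' μ a := by
  simp [anti'_apply]

@[simp] theorem anti_t : anti μ (t μ i j) = g' μ * r μ i j * g μ := by simp [anti_apply]
@[simp] theorem anti_r : anti μ (r μ i j) = t μ i j := by simp [anti_apply]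
@[simp] theorem anti_g : anti μ (g μ) = g' μ := by simp [anti_apply]
@[simp] theorem anti_g' : anti μ (g' μ) = g μ := by simp [anti_apply]
@[simp] theorem anti'_t : anti' μ (t μ i j) = r μ i j := by simp [anti'_apply]
@[simp] theorem anti'_r : anti' μ (r μ i j) = g μ * t μ i j * g' μ := by simp [anti'_apply]
@[simp] theorem anti'_g : anti' μ (g μ) = g' μ := by simp [anti'_apply]
@[simp] theorem anti'_g' : anti' μ (g' μ) = g μ := by simp [anti'_apply]

theorem conj1 (x : HA μ) : g' μ * (g μ * x * g' μ) * g μ = x := by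
  have h := (sol μ).g'g
  change g' μ * g μ = 1 at h
  calc g' μ * (g μ * x * g' μ) * g μ = (g' μ * g μ) * x * (g' μ * g μ) := by noncomm_ring
    _ = x := by rw [h, one_mul, mul_one]

theorem conj2 (x : HA μ) : g μ * (g' μ * x * g μ) * g' μ = x := (sol μ).conj x

theorem anti'_anti (x : HA μ) : anti' μ (anti μ x) = x := by
  have h : AlgHom.ofLinearMap (anti' μ ∘ₗ anti μ) (by simp [anti_apply, anti'_apply])
      (fun a b => by simp only [LinearMap.comp_apply, anti_mul, anti'_mul]) =
      AlgHom.id k (HA μ) := by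
    apply algHom_ext
    · intro i j
      simp only [AlgHom.ofLinearMap_apply, LinearMap.comp_apply, anti_t, anti'_mul, anti'_g,
        anti'_r, anti'_g', AlgHom.id_apply, ← mul_assoc]
      simpa only [← mul_assoc] using conj1 μ (t μ i j)
    · intro i j
      simp
    · simp
    · simp
  exact congrArg (fun f : HA μ →ₐ[k] HA μ => f x) h

theorem anti_anti' (x : HA μ) : anti μ (anti' μ x) = x := by
  have h : AlgHom.ofLinearMap (anti μ ∘ₗ anti' μ) (by simp [anti_apply, anti'_apply])
      (fun a b => by simp only [LinearMap.comp_apply, anti_mul, anti'_mul]) =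
      AlgHom.id k (HA μ) := by
    apply algHom_ext
    · intro i j
      simp
    · intro i j
      simp only [AlgHom.ofLinearMap_apply, LinearMap.comp_apply, anti'_r, anti_mul, anti_g,
        anti_t, anti_g', AlgHom.id_apply, ← mul_assoc]
      simpa only [← mul_assoc] using conj2 μ (r μ i j)
    · simp
    · simp
  exact congrArg (fun f : HA μ →ₐ[k] HA μ => f x) h

theorem antipode_bijective : Function.Bijective (HopfAlgebra.antipode k (A := HA μ)) := by
  refine Function.bijective_iff_has_inverse.2 ⟨anti' μ, anti'_anti μ, anti_anti' μ⟩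

end HA

end bialg

end hopf

end

end Pool.Agent.Lib.MP_e682ea_al
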