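import Pool.Agent.Lib.MP_e682ea_al.Conc

/-!
The left coideal subalgebra of the universal Hopf algebra, its integral, and the failure of
self-injectivity.
-/

open Finset
open scoped TensorProduct

namespace Pool.Agent.Lib.MP_e682ea_al

universe u v

section inj

variable {R : Type u} [Ring R]

theorem left_inj [h : Module.Injective R R] (y f : R) (hyf : ∀ z, z * y = 0 → z * f = 0) :
    ∃ z, y * z = f := by
  let φ : R → (R →ₗ[R] R) := fun a => LinearMap.toSpanSingleton R R a
  have h1 : LinearMap.ker (φ y) ≤ LinearMap.ker (φ f) := by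
    intro z hz
    simp only [φ, LinearMap.mem_ker, LinearMap.toSpanSingleton_apply, smul_eq_mul] at hz ⊢
    exact hyf z hz
  let i : (R ⧸ LinearMap.ker (φ y)) →ₗ[R] R := (LinearMap.ker (φ y)).liftQ (φ y) le_rfl
  have hi : Function.Injective i := by
    rw [← LinearMap.ker_eq_bot]
    exact Submodule.ker_liftQ_eq_bot _ _ _ le_rfl
  let g : (R ⧸ LinearMap.ker (φ y)) →ₗ[R] R := (LinearMap.ker (φ y)).liftQ (φ f) h1
  obtain ⟨H, hH⟩ := h.out i hi g
  refine ⟨H 1, ?_⟩
  have h2 := hH (Submodule.Quotient.mk 1)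
  simp only [i, g, Submodule.liftQ_apply, φ, LinearMap.toSpanSingleton_apply, one_smul] at h2
  rw [← h2, ← smul_eq_mul, ← map_smul, smul_eq_mul, mul_one]

theorem right_inj [h : Module.Injective Rᵐᵒᵖ R] (x f : R) (hxf : ∀ z, x * z = 0 → f * z = 0) :
    ∃ z, z * x = f := by
  let φ : R → (R →ₗ[Rᵐᵒᵖ] R) := fun a =>
    { toFun := fun z => a * z
      map_add' := fun _ _ => mul_add _ _ _
      map_smul' := fun r z => by simp [MulOpposite.smul_eq_mul_unop, mul_assoc] }
  have hφ : ∀ a z, φ a z = a * z := fun _ _ => rfl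
  have h1 : LinearMap.ker (φ x) ≤ LinearMap.ker (φ f) := by
    intro z hz
    simp only [LinearMap.mem_ker, hφ] at hz ⊢
    exact hxf z hz
  let i : (R ⧸ LinearMap.ker (φ x)) →ₗ[Rᵐᵒᵖ] R := (LinearMap.ker (φ x)).liftQ (φ x) le_rfl
  have hi : Function.Injective i := by
    rw [← LinearMap.ker_eq_bot]
    exact Submodule.ker_liftQ_eq_bot _ _ _ le_rfl
  let g : (R ⧸ LinearMap.ker (φ x)) →ₗ[Rᵐᵒᵖ] R := (LinearMap.ker (φ x)).liftQ (φ f) h1
  obtain ⟨H, hH⟩ := h.out i hi g
  refine ⟨H 1, ?_⟩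
  have h2 := hH (Submodule.Quotient.mk 1)
  simp only [i, g, Submodule.liftQ_apply, hφ, mul_one] at h2
  have h3 : H (MulOpposite.op x • (1 : R)) = MulOpposite.op x • H 1 := map_smul H _ _
  rw [MulOpposite.smul_eq_mul_unop, MulOpposite.smul_eq_mul_unop, MulOpposite.unop_op,
    one_mul] at h3
  rw [← h3, h2]

end inj

section
variable (k : Type u) [Field k]

/-- the Hopf algebra -/
abbrev AA : Type u := HA (μ₀ k)

/-- the basis elements of the coideal -/
noncomputable def E (i : Fin 5) : AA k := HA.t (μ₀ k) i 0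

theorem E_mul (i j : Fin 5) : E k i * E k j = (prodIdx i j).elim 0 (E k) := by
  have h := (HA.sol (μ₀ k)).mt i j 0
  have h1 : ∑ a, ∑ b, μ₀ k a b 0 • ((HA.sol (μ₀ k)).t i a * (HA.sol (μ₀ k)).t j b) =
      E k i * E k j := by
    simp [Fin.sum_univ_five, μ₀, prodIdx, E, HA.sol]
  have h2 : ∑ l, μ₀ k i j l • (HA.sol (μ₀ k)).t l 0 = (prodIdx i j).elim 0 (E k) := by
    cases h : prodIdx i j with
    | none => simp [μ₀, h]
    | some l => simp [μ₀, h, E, HA.sol]
  rw [← h1, h, h2]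

/-- general element -/
noncomputable def el : (k × (Fin 5 → k)) →ₗ[k] AA k where
  toFun x := x.1 • 1 + ∑ i, x.2 i • E k i
  map_add' x y := by
    simp only [Prod.fst_add, Prod.snd_add, Pi.add_apply, add_smul, Finset.sum_add_distrib]
    abel
  map_smul' c x := by
    simp only [Prod.smul_fst, Prod.smul_snd, Pi.smul_apply, smul_eq_mul, mul_smul, smul_add,
      Finset.smul_sum, RingHom.id_apply]

theorem el_apply (x : k × (Fin 5 → k)) : el k x = x.1 • 1 + ∑ i, x.2 i • E k i := rfl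

/-- multiplication in coordinates -/
def mulC (x y : k × (Fin 5 → k)) : k × (Fin 5 → k) :=
  (x.1 * y.1, ![x.1 * y.2 0 + x.2 0 * y.1 + x.2 0 * y.2 0,
    x.1 * y.2 1 + x.2 1 * y.1 + x.2 1 * y.2 1,
    x.1 * y.2 2 + x.2 2 * y.1 + x.2 1 * y.2 2,
    x.1 * y.2 3 + x.2 3 * y.1 + x.2 3 * y.2 1,
    x.1 * y.2 4 + x.2 4 * y.1 + x.2 1 * y.2 4 + x.2 4 * y.2 1 + x.2 2 * y.2 3])

theorem el_mul (x y : k × (Fin 5 → k)) : el k x * el k y = el k (mulC k x y) := by
  obtain ⟨a, z⟩ := x
  obtain ⟨b, w⟩ := y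
  simp only [el_apply, mulC, Fin.sum_univ_five, add_mul, mul_add, smul_mul_assoc,
    mul_smul_comm, E_mul, one_mul, mul_one, prodIdx, Option.elim]
  simp
  module

/-- the coideal subalgebra -/
noncomputable def NN : Subalgebra k (AA k) where
  carrier := Set.range (el k)
  mul_mem' := by
    rintro _ _ ⟨x, rfl⟩ ⟨y, rfl⟩
    exact ⟨mulC k x y, (el_mul k x y).symm⟩
  add_mem' := by
    rintro _ _ ⟨x, rfl⟩ ⟨y, rfl⟩
    exact ⟨x + y, map_add _ _ _⟩
  algebraMap_mem' := fun c => ⟨(c, 0), by simp [el_apply, Algebra.algebraMap_eq_smul_one]⟩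

theorem mem_NN {x : AA k} : x ∈ NN k ↔ ∃ y, el k y = x := Iff.rfl

theorem E_mem (i : Fin 5) : E k i ∈ NN k := ⟨(0, Pi.single i 1), by
  rw [el_apply]
  simp [Pi.single_apply]⟩

/-- parametrisation -/
noncomputable def el' : (k × (Fin 5 → k)) →ₗ[k] NN k :=
  (el k).codRestrict (Subalgebra.toSubmodule (NN k)) fun x => ⟨x, rfl⟩

theorem el'_surj : Function.Surjective (el' k) := by
  rintro ⟨_, x, rfl⟩
  exact ⟨x, rfl⟩

theorem coe_el' (x : k × (Fin 5 → k)) : (el' k x : AA k) = el k x := rfl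

instance : FiniteDimensional k (NN k) := Module.Finite.of_surjective (el' k) (el'_surj k)

theorem el'_mul (x y : k × (Fin 5 → k)) : el' k x * el' k y = el' k (mulC k x y) :=
  Subtype.ext (el_mul k x y)

/-- the representation -/
noncomputable def rep : AA k →ₐ[k] Module.End k (WW k) := (Conc.dat k).sol.lift

theorem rep_E (i : Fin 5) : rep k (E k i) = (Conc.dat k).T i 0 := Sol.lift_t _ _ _

theorem el_inj : Function.Injective (el k) := by
  rw [← LinearMap.ker_eq_bot, LinearMap.ker_eq_bot']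
  rintro ⟨a, z⟩ hx
  have hr : rep k (el k (a, z)) = 0 := by rw [hx, map_zero]
  have hc : HA.counit (μ₀ k) (el k (a, z)) = 0 := by rw [hx, map_zero]
  rw [el_apply, map_add, map_smul, map_one, map_sum] at hr hc
  simp only [map_smul, rep_E, Fin.sum_univ_five] at hr
  set D := Conc.dat k with hD
  have hp := congrArg (fun f : Module.End k (WW k) => f D.p) hr
  have hq := congrArg (fun f : Module.End k (WW k) => f D.q) hr
  have hs := congrArg (fun f : Module.End k (WW k) => f (D.s + D.p)) hr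
  simp [Dat.T, D.c_p, D.c1_p, D.d_p, D.c_s, D.c1_s, D.d_s, D.c_q, D.c1_q, D.d_q] at hp hq hs
  have e1 := congrArg D.b hp
  have e2 := congrArg D.a hp
  have e3 := congrArg D.b hs
  have e4 := congrArg D.a hs
  have e5 := congrArg D.a hq
  simp [D.a_p, D.a_q, D.a_s, D.b_p, D.b_q, D.b_s] at e1 e2 e3 e4 e5
  have hc' : a + z 0 = 0 := by
    simpa [E, Fin.sum_univ_five] using hc
  have h0 : z 0 = 0 := by simpa [e3] using hc'
  have h1 : z 1 = 0 := by simpa [e3] using e5
  refine Prod.ext e3 (funext fun i => ?_)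
  fin_cases i
  · exact h0
  · exact h1
  · exact e4
  · exact e1
  · exact e2

theorem el'_inj : Function.Injective (el' k) := fun x y h =>
  el_inj k (congrArg Subtype.val h)

theorem not_left : ¬ Module.Injective (NN k) (NN k) := by
  intro hinj
  obtain ⟨z, hz⟩ := left_inj (el' k (0, ![0, 0, 0, 1, 0])) (el' k (1, ![-1, -1, 0, 0, 0])) (by
    intro z hz
    obtain ⟨⟨a, z⟩, rfl⟩ := el'_surj k z
    rw [el'_mul] at hz ⊢
    have h := el'_inj k (hz.trans (map_zero (el' k)).symm)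
    simp only [mulC, Prod.ext_iff, Prod.fst_zero, Prod.snd_zero] at h
    have h3 := congrFun h.2 3
    have h4 := congrFun h.2 4
    simp at h3 h4
    rw [← map_zero (el' k)]
    congr 1
    simp [mulC, h3, h4])
  obtain ⟨⟨a, z⟩, rfl⟩ := el'_surj k z
  rw [el'_mul] at hz
  have h := congrArg Prod.fst (el'_inj k hz)
  simp [mulC] at h

theorem not_right : ¬ Module.Injective (NN k)ᵐᵒᵖ (NN k) := by
  intro hinj
  obtain ⟨z, hz⟩ := right_inj (el' k (0, ![0, 0, 1, 0, 0])) (el' k (1, ![-1, -1, 0, 0, 0])) (by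
    intro z hz
    obtain ⟨⟨a, z⟩, rfl⟩ := el'_surj k z
    rw [el'_mul] at hz ⊢
    have h := el'_inj k (hz.trans (map_zero (el' k)).symm)
    simp only [mulC, Prod.ext_iff, Prod.fst_zero, Prod.snd_zero] at h
    have h3 := congrFun h.2 2
    have h4 := congrFun h.2 4
    simp at h3 h4
    rw [← map_zero (el' k)]
    congr 1
    simp [mulC, h3, h4])
  obtain ⟨⟨a, z⟩, rfl⟩ := el'_surj k z
  rw [el'_mul] at hz
  have h := congrArg Prod.fst (el'_inj k hz)
  simp [mulC] at h

theorem counit_el (x : k × (Fin 5 → k)) :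
    Coalgebra.counit (R := k) (el k x) = x.1 + x.2 0 := by
  rw [HA.counit_eq, el_apply, map_add, map_smul, map_one, map_sum]
  simp [E, Fin.sum_univ_five]

theorem counit_E_zero : Coalgebra.counit (R := k) (E k 0) = 1 := by
  rw [HA.counit_eq]
  simp [E]

theorem integral (x : AA k) (hx : x ∈ NN k) :
    x * E k 0 = Coalgebra.counit (R := k) x • E k 0 ∧
      E k 0 * x = Coalgebra.counit (R := k) x • E k 0 := by
  obtain ⟨⟨a, z⟩, rfl⟩ := hx
  rw [counit_el]
  constructor
  · simp only [el_apply, Fin.sum_univ_five, add_mul, smul_mul_assoc, E_mul, one_mul, prodIdx,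
      Option.elim]
    simp
    module
  · simp only [el_apply, Fin.sum_univ_five, mul_add, mul_smul_comm, E_mul, mul_one, prodIdx,
      Option.elim]
    simp
    module

theorem coideal (x : AA k) (hx : x ∈ NN k) :
    Coalgebra.comul (R := k) x ∈
      LinearMap.range (TensorProduct.map (LinearMap.id : AA k →ₗ[k] AA k)
        (Subalgebra.val (NN k)).toLinearMap) := by
  obtain ⟨⟨a, z⟩, rfl⟩ := hx
  rw [el_apply, map_add, map_smul, map_sum]
  refine add_mem (Submodule.smul_mem _ _ ?_) (Submodule.sum_mem _ fun i _ => ?_)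
  · exact ⟨1 ⊗ₜ 1, by rw [Bialgebra.comul_one]; rfl⟩
  · rw [map_smul]
    refine Submodule.smul_mem _ _ ?_
    refine ⟨∑ l, HA.t (μ₀ k) i l ⊗ₜ[k] ⟨E k l, E_mem k l⟩, ?_⟩
    rw [HA.comul_eq, E, HA.comul_t, map_sum]
    rfl

theorem one_not_slice (f : AA k →ₗ[k] k) :
    TensorProduct.lid k (AA k) (f.rTensor (AA k) (Coalgebra.comul (R := k) (E k 0))) ≠ 1 := by
  intro h
  have h1 : TensorProduct.lid k (AA k) (f.rTensor (AA k) (Coalgebra.comul (R := k) (E k 0))) =
      el k (0, fun l => f (HA.t (μ₀ k) 0 l)) := by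
    rw [HA.comul_eq, E, HA.comul_t, map_sum, map_sum, el_apply]
    simp [E]
  have h2 : el k (1, 0) = 1 := by simp [el_apply]
  rw [h1, ← h2] at h
  have := congrArg Prod.fst (el_inj k h)
  simp at this

end

end Pool.Agent.Lib.MP_e682ea_al
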