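import Pool.Agent.Lib.MP_e682ea_al.Hopf

/-!
Abstract representation data for the universal Hopf algebra of the 5-dimensional algebra
`k e₀ × span(e, x, y, ε)`.
-/

open Finset

namespace Pool.Agent.Lib.MP_e682ea_al

universe u v

/-- structure constants of the five dimensional algebra with basis `e₀, e, x, y, ε` (indices
`0, 1, 2, 3, 4`) -/
def prodIdx (i j : Fin 5) : Option (Fin 5) :=
  match i, j with
  | 0, 0 => some 0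
  | 1, 1 => some 1
  | 1, 2 => some 2
  | 3, 1 => some 3
  | 1, 4 => some 4
  | 4, 1 => some 4
  | 2, 3 => some 4
  | _, _ => none

/-- structure constants -/
def μ₀ (k : Type u) [Field k] (i j l : Fin 5) : k := if prodIdx i j = some l then 1 else 0

/-- The operators needed for a representation. -/
structure Dat (k : Type u) (W : Type v) [Field k] [AddCommGroup W] [Module k W] where
  u : W →ₗ[k] W
  v : W →ₗ[k] W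
  v' : W →ₗ[k] W
  m : W →ₗ[k] W
  r : W →ₗ[k] W
  h : W →ₗ[k] W
  hi : W →ₗ[k] W
  a : W →ₗ[k] k
  a1 : W →ₗ[k] k
  b : W →ₗ[k] k
  c : W →ₗ[k] k
  c1 : W →ₗ[k] k
  d : W →ₗ[k] k
  v0 : W
  p : W
  q : W
  s : W
  y0 : W
  h_hi : ∀ x, h (hi x) = x
  hi_h : ∀ x, hi (h x) = x
  u_v : ∀ x, u (v x) = x
  v_u : ∀ x, v (u x) = x - c x • v0
  u_v0 : u v0 = 0
  c_v0 : c v0 = 1
  c_v : ∀ x, c (v x) = 0
  u_v' : ∀ x, u (v' x) = x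
  v'_u : ∀ x, v' (u x) = x - a x • v0
  a_v0 : a v0 = 1
  a_v' : ∀ x, a (v' x) = 0
  a_p : a p = 0
  a_q : a q = 1
  a_s : a s = 0
  a1_p : a1 p = 1
  a1_q : a1 q = 0
  a1_s : a1 s = 0
  b_p : b p = 0
  b_q : b q = 0
  b_s : b s = 1
  c_p : c p = 1
  c_q : c q = 0
  c_s : c s = -1
  c1_p : c1 p = 0
  c1_q : c1 q = 1
  c1_s : c1 s = 0
  d_p : d p = 0
  d_q : d q = 0
  d_s : d s = 1
  u2 : W →ₗ[k] W
  m2 : W →ₗ[k] W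
  r2 : W →ₗ[k] W
  b2 : W →ₗ[k] k
  h_v' : ∀ x, h (v' x) = v (h x)
  h_u : ∀ x, h (u x) = u2 (h x)
  h_m : ∀ x, h (m x) = m2 (h x)
  h_r : ∀ x, h (r x) = r2 (h x)
  a_hi : ∀ x, a (hi x) = c x
  a1_hi : ∀ x, a1 (hi x) = b x
  c_hi : ∀ x, c (hi x) = a1 x
  c1_hi : ∀ x, c1 (hi x) = a x
  d_hi : ∀ x, d (hi x) = b x - a1 x
  b_hi : ∀ x, b (hi x) = b2 x
  h_v0 : h v0 = p
  h_q : h q = v0
  h_p : h p = v (r (m v0) - y0)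
  c1_v0 : c1 v0 = 0
  d_m_v0 : d (m v0) = 0
  b_r_v0 : b (r v0) = 0
  b2_v0 : b2 v0 = 0
  b2_s : b2 s = 0
  h_s : h s = - m v0 - h p
  u2_v : ∀ x, u2 (v x) = x
  v_u2 : ∀ x, v (u2 x) = x - c x • p
  u2_p : u2 p = 0
  m_v : ∀ x, m (v x) = b2 x • p + v (m2 x)
  r2_eq : ∀ x, r2 x = d (u2 x) • v0 + v (r (u2 x)) - c x • s
  h_y0 : h y0 = - m2 s - u2 q
  b_v : ∀ x, b (v x) = b2 (v (r x)) - d (v (m2 x)) + c1 (v x)

section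
variable {k : Type u} {W : Type v} [Field k] [AddCommGroup W] [Module k W]

/-- rank one operator -/
def rk (f : W →ₗ[k] k) (x : W) : Module.End k W := f.smulRight x

@[simp] theorem rk_apply (f : W →ₗ[k] k) (x w : W) : rk f x w = f w • x := rfl

namespace Dat
variable (D : Dat k W)

/-- entry -/
def T04 : Module.End k W :=
  rk D.a1 D.v0 - D.a1 D.v0 • rk D.a D.v0 + D.b (D.r D.v0) • rk D.a D.v0 +
    rk D.a (D.v' (D.m (D.r D.v0) - D.y0))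

/-- entry -/
def R04 : Module.End k W :=
  rk D.c1 D.v0 - D.c1 D.v0 • rk D.c D.v0 + D.d (D.m D.v0) • rk D.c D.v0 +
    rk D.c (D.v (D.r (D.m D.v0) - D.y0))

/-- the matrix `t` -/
def T (i j : Fin 5) : Module.End k W :=
  match i, j with
  | 0, 0 => 1 - rk D.c D.p - rk D.c1 D.q - rk D.d (D.s + D.p)
  | 0, 1 => rk D.a D.v0
  | 0, 2 => rk D.b D.v0
  | 0, 3 => - rk D.a (D.r D.v0)
  | 0, 4 => D.T04
  | 1, 0 => rk D.c D.p + rk D.c1 D.q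
  | 1, 1 => 1 - rk D.a D.v0
  | 1, 2 => D.v' ∘ₗ D.m
  | 1, 3 => - D.r + rk D.a (D.r D.v0)
  | 1, 4 => rk (D.b ∘ₗ D.r) D.v0 + D.v' ∘ₗ D.m ∘ₗ D.r - D.T04
  | 2, 0 => rk D.d D.q
  | 2, 1 => 0
  | 2, 2 => D.v'
  | 2, 3 => 0
  | 2, 4 => D.v' ∘ₗ D.r
  | 3, 0 => rk D.c (D.s + D.p)
  | 3, 1 => 0
  | 3, 2 => 0
  | 3, 3 => D.u
  | 3, 4 => - rk (D.b ∘ₗ D.u) D.v0 - D.v' ∘ₗ D.m ∘ₗ D.u
  | 4, 0 => rk D.c D.q
  | 4, 1 => 0
  | 4, 2 => 0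
  | 4, 3 => 0
  | 4, 4 => 1 - rk D.a D.v0

/-- the matrix `r` -/
def R (i j : Fin 5) : Module.End k W :=
  match i, j with
  | 0, 0 => 1 - rk D.a D.q - rk D.a1 D.p - rk D.b D.s
  | 0, 1 => rk D.c D.v0
  | 0, 2 => - rk D.c (D.m D.v0)
  | 0, 3 => rk D.d D.v0
  | 0, 4 => D.R04
  | 1, 0 => rk D.a D.q + rk D.a1 D.p
  | 1, 1 => 1 - rk D.c D.v0
  | 1, 2 => - D.m + rk D.c (D.m D.v0)
  | 1, 3 => D.v ∘ₗ D.r
  | 1, 4 => rk (D.d ∘ₗ D.m) D.v0 + D.v ∘ₗ D.r ∘ₗ D.m - D.R04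
  | 2, 0 => rk D.a D.s
  | 2, 1 => 0
  | 2, 2 => D.u
  | 2, 3 => 0
  | 2, 4 => - rk (D.d ∘ₗ D.u) D.v0 - D.v ∘ₗ D.r ∘ₗ D.u
  | 3, 0 => rk D.b D.p
  | 3, 1 => 0
  | 3, 2 => 0
  | 3, 3 => D.v
  | 3, 4 => D.v ∘ₗ D.m
  | 4, 0 => rk D.a D.p
  | 4, 1 => 0
  | 4, 2 => 0
  | 4, 3 => 0
  | 4, 4 => 1 - rk D.c D.v0

theorem v'_eq (x : W) : D.v' x = D.v x - D.a (D.v x) • D.v0 := by
  have h := D.v'_u (D.v x)
  rw [D.u_v] at h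
  exact h

theorem a_v_c (x : W) : D.a x = D.c x + D.a (D.v (D.u x)) := by
  rw [D.v_u]
  simp [D.a_v0]

theorem tr (i l : Fin 5) : ∑ j, D.T j l * D.R i j = if i = l then 1 else 0 := by
  rw [Fin.sum_univ_five]
  fin_cases i <;> fin_cases l <;>
  (ext w
   simp [T, R, T04, R04, D.u_v, D.v_u, D.u_v0, D.c_v0, D.c_v, D.v'_eq, D.a_v0,
     D.a_p, D.a_q, D.a_s, D.a1_p, D.a1_q, D.a1_s, D.b_p, D.b_q, D.b_s, D.c_p, D.c_q, D.c_s,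
     D.c1_p, D.c1_q, D.c1_s, D.d_p, D.d_q, D.d_s]
   try first | module | (right; module))

theorem rt (i l : Fin 5) : ∑ j, D.R j l * D.T i j = if i = l then 1 else 0 := by
  rw [Fin.sum_univ_five]
  fin_cases i <;> fin_cases l <;>
  (ext w
   simp [T, R, T04, R04, D.u_v, D.v_u, D.u_v0, D.c_v0, D.c_v, D.v'_eq, D.a_v0,
     D.a_p, D.a_q, D.a_s, D.a1_p, D.a1_q, D.a1_s, D.b_p, D.b_q, D.b_s, D.c_p, D.c_q, D.c_s,
     D.c1_p, D.c1_q, D.c1_s, D.d_p, D.d_q, D.d_s]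
   try first | module | (right; module))

theorem r_hi (x : W) : D.r (D.hi x) = D.hi (D.r2 x) := by
  rw [← D.hi_h (D.r (D.hi x)), D.h_r, D.h_hi]

theorem m_hi (x : W) : D.m (D.hi x) = D.hi (D.m2 x) := by
  rw [← D.hi_h (D.m (D.hi x)), D.h_m, D.h_hi]

theorem u_hi (x : W) : D.u (D.hi x) = D.hi (D.u2 x) := by
  rw [← D.hi_h (D.u (D.hi x)), D.h_u, D.h_hi]

theorem v'_hi (x : W) : D.v' (D.hi x) = D.hi (D.v x) := by
  rw [← D.hi_h (D.v' (D.hi x)), D.h_v', D.h_hi]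

/-- conjugate of `T` -/
def T2 (i j : Fin 5) : Module.End k W := D.h * D.T i j * D.hi

theorem a_h (x : W) : D.a (D.h x) = D.c1 x := by rw [← D.c1_hi, D.hi_h]
theorem a1_h (x : W) : D.a1 (D.h x) = D.c x := by rw [← D.c_hi, D.hi_h]
theorem b_h (x : W) : D.b (D.h x) = D.d x + D.c x := by
  have := D.d_hi (D.h x)
  rw [D.hi_h, D.a1_h] at this
  rw [this]; ring
theorem c_h (x : W) : D.c (D.h x) = D.a x := by rw [← D.a_hi, D.hi_h]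
theorem b2_h (x : W) : D.b2 (D.h x) = D.b x := by rw [← D.b_hi, D.hi_h]
theorem a1_v0 : D.a1 D.v0 = 0 := by rw [← D.h_q, D.a1_h, D.c_q]
theorem b_v0 : D.b D.v0 = 0 := by rw [← D.h_q, D.b_h, D.c_q, D.d_q, add_zero]
theorem m_v0 : D.m D.v0 = - D.h D.s - D.h D.p := by rw [D.h_s]; module
theorem d_h_s : D.d (D.h D.s) = - D.d (D.h D.p) := by
  have := D.d_m_v0
  rw [D.m_v0, map_sub, map_neg] at this
  linear_combination -this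

theorem R04_eq : D.R04 = rk D.c1 D.v0 + rk D.c (D.h D.p) := by
  rw [R04, D.h_p, D.c1_v0, D.d_m_v0]
  simp

theorem T04_eq : D.T04 = rk D.a1 D.v0 + rk D.a (D.v' (D.m (D.r D.v0) - D.y0)) := by
  rw [T04, D.a1_v0, D.b_r_v0]
  simp

theorem rT (i l : Fin 5) : ∑ j, D.R i j * D.T2 j l = if i = l then 1 else 0 := by
  rw [Fin.sum_univ_five]
  fin_cases i <;> fin_cases l <;>
  (apply LinearMap.ext
   intro w
   obtain ⟨x, γ, rfl⟩ : ∃ x γ, w = D.v x + γ • D.p := ⟨D.u2 w, D.c w, by rw [D.v_u2]; module⟩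
   simp [T2, T, R, T04_eq, R04_eq, D.u_v, D.u_v0, D.c_v0, D.c_v, D.a_v0,
     D.a_p, D.a_q, D.a_s, D.a1_p, D.a1_q, D.a1_s, D.b_p, D.b_q, D.b_s, D.c_p, D.c_q, D.c_s,
     D.c1_p, D.c1_q, D.c1_s, D.d_p, D.d_q, D.d_s, D.h_v', D.h_u, D.h_m, D.h_r, D.a_hi,
     D.a1_hi, D.c_hi, D.c1_hi, D.d_hi, D.b_hi, D.h_v0, D.h_q, D.u2_v,
     D.u2_p, D.m_v, D.r2_eq, D.h_y0, D.r_hi, D.m_hi, D.u_hi, D.v'_hi, D.h_hi, D.hi_h,
     D.a_h, D.a1_h, D.b_h, D.c_h, D.b2_h, D.a1_v0, D.b_v0, D.m_v0, D.d_h_s, D.b2_v0, D.b2_s,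
     D.b_v, D.v_u2, D.c1_v0]
   try first | module | (right; module))

theorem Tr (i l : Fin 5) : ∑ j, D.T2 i j * D.R j l = if i = l then 1 else 0 := by
  rw [Fin.sum_univ_five]
  fin_cases i <;> fin_cases l <;>
  (apply LinearMap.ext
   intro w
   obtain ⟨x, γ, rfl⟩ : ∃ x γ, w = D.v x + γ • D.v0 := ⟨D.u w, D.c w, by rw [D.v_u]; module⟩
   simp [T2, T, R, T04_eq, R04_eq, D.u_v, D.u_v0, D.c_v0, D.c_v, D.a_v0,
     D.a_p, D.a_q, D.a_s, D.a1_p, D.a1_q, D.a1_s, D.b_p, D.b_q, D.b_s, D.c_p, D.c_q, D.c_s,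
     D.c1_p, D.c1_q, D.c1_s, D.d_p, D.d_q, D.d_s, D.h_v', D.h_u, D.h_m, D.h_r, D.a_hi,
     D.a1_hi, D.c_hi, D.c1_hi, D.d_hi, D.b_hi, D.h_v0, D.h_q, D.u2_v,
     D.u2_p, D.m_v, D.r2_eq, D.h_y0, D.r_hi, D.m_hi, D.u_hi, D.v'_hi, D.h_hi, D.hi_h,
     D.a_h, D.a1_h, D.b_h, D.c_h, D.b2_h, D.a1_v0, D.b_v0, D.m_v0, D.d_h_s, D.b2_v0, D.b2_s,
     D.b_v, D.v_u2, D.c1_v0]
   try first | module | (right; module))

end Dat

end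

end Pool.Agent.Lib.MP_e682ea_al
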