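import Pool.Agent.Lib.MP_e682ea_al.Rep

open Finset

namespace Pool.Agent.Lib.MP_e682ea_al

universe u v
section
variable {k : Type u} {W : Type v} [Field k] [AddCommGroup W] [Module k W]
namespace Dat
variable (D : Dat k W)

theorem μ₀_sum (F : Fin 5 → Fin 5 → Module.End k W) (c : Fin 5) :
    ∑ a, ∑ b, μ₀ k a b c • F a b =
      match c with
      | 0 => F 0 0
      | 1 => F 1 1
      | 2 => F 1 2
      | 3 => F 3 1
      | 4 => F 1 4 + F 4 1 + F 2 3 := by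
  fin_cases c <;> simp [Fin.sum_univ_five, μ₀, prodIdx]
  abel

theorem μ₀_sum' (F : Fin 5 → Module.End k W) (i j : Fin 5) :
    ∑ l, μ₀ k i j l • F l = (prodIdx i j).elim 0 F := by
  cases h : prodIdx i j with
  | none => simp [μ₀, h]
  | some l => simp [μ₀, h]

theorem mt (i j c : Fin 5) : ∑ a, ∑ b, μ₀ k a b c • (D.T i a * D.T j b) =
    ∑ l, μ₀ k i j l • D.T l c := by
  rw [μ₀_sum, μ₀_sum']
  fin_cases c <;> fin_cases i <;> fin_cases j <;>
  (apply LinearMap.ext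
   intro w
   simp [prodIdx, T, T04_eq, D.u_v', D.v'_u, D.u_v0, D.c_v0, D.a_v0, D.a_v',
     D.a_p, D.a_q, D.a_s, D.a1_p, D.a1_q, D.a1_s, D.b_p, D.b_q, D.b_s, D.c_p, D.c_q, D.c_s,
     D.c1_p, D.c1_q, D.c1_s, D.d_p, D.d_q, D.d_s, D.a1_v0, D.b_v0, D.c1_v0, D.b_r_v0]
   try first | module | (right; module))

theorem mr (i j c : Fin 5) : ∑ a, ∑ b, μ₀ k a b c • (D.R j b * D.R i a) =
    ∑ l, μ₀ k i j l • D.R l c := by
  rw [μ₀_sum, μ₀_sum']
  fin_cases c <;> fin_cases i <;> fin_cases j <;>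
  (apply LinearMap.ext
   intro w
   simp [prodIdx, R, R04_eq, D.u_v, D.v_u, D.u_v0, D.c_v0, D.c_v, D.a_v0,
     D.a_p, D.a_q, D.a_s, D.a1_p, D.a1_q, D.a1_s, D.b_p, D.b_q, D.b_s, D.c_p, D.c_q, D.c_s,
     D.c1_p, D.c1_q, D.c1_s, D.d_p, D.d_q, D.d_s, D.a1_v0, D.b_v0, D.c1_v0, D.b_r_v0, D.d_m_v0,
     D.c_h]
   try first | module | (right; module))

/-- The solution of the defining relations given by the data. -/
def sol : Sol (μ₀ k) (Module.End k W) where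
  t := D.T
  r := D.R
  g := D.h
  g' := D.hi
  gg' := LinearMap.ext D.h_hi
  g'g := LinearMap.ext D.hi_h
  tr := D.tr
  rt := D.rt
  rT := D.rT
  Tr := D.Tr
  mt := D.mt
  mr := D.mr

end Dat
end
end Pool.Agent.Lib.MP_e682ea_al
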